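import Pool.Agent.H17.Ideals.Final

/-!
# Property (I) and failure of the principle of local reflexivity

Affirmative answer to Q1: if `(𝔅, 𝐁)` is a maximal Banach ideal, `X₀'` and `Y₀` have cotype 2,
`𝔅*(X₀, Y₀)` is not contained in `𝔏₂(X₀, Y₀)` and `𝔅 ∘ 𝔏_∞` has property (I), then the `𝔅`-LRP
fails.
-/

set_option autoImplicit false

universe u

namespace Pool.Agent.Results.MP_df739d_an.CotypeTwoLRPFails

open Pool.Agent.H17.Ideals

/-- Let `(𝔅, 𝐁)` be a maximal Banach ideal and let `X₀`, `Y₀` be Banach spaces such that `X₀'` and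
`Y₀` have cotype 2 and some operator `T : X₀ → Y₀` belongs to `𝔅*` but does not factor through a
Hilbert space.  If `𝔅 ∘ 𝔏_∞` has property (I), then the `𝔅`-LRP fails. -/
theorem result {𝕜 : Type} [RCLike 𝕜] (B : BanachIdeal.{u} 𝕜) (hmax : B.Maximal)
    (X₀ Y₀ : Ban.{u} 𝕜) (hX₀ : X₀.dual.CotypeTwo) (hY₀ : Y₀.CotypeTwo)
    (hsub : ∃ T : Op X₀ Y₀, B.adjointNrm T < ⊤ ∧ ¬ FactorsThroughHilbert T)
    (hI : B.CompLInftyPropertyI) : ¬ B.LRP := by
  intro hLRP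
  obtain ⟨T, hT, hT2⟩ := hsub
  exact hT2 (factorsThroughHilbert_of_LRP B hmax hLRP hI hX₀ hY₀ T hT)

end Pool.Agent.Results.MP_df739d_an.CotypeTwoLRPFails
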