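import Pool.Agent.H17.Ideals.Access

/-!
# The principle of local reflexivity for a Banach ideal forces right-accessibility

For every Banach operator ideal `(𝔅, 𝐁)` the `𝔅`-LRP implies that `𝔅` is right-accessible.
-/

set_option autoImplicit false

universe u

namespace Pool.Agent.Results.MP_df739d_an.LRPRightAccessible

open Pool.Agent.H17.Ideals

/-- If a Banach operator ideal `(𝔅, 𝐁)` satisfies the `𝔅`-LRP then it is right-accessible. -/
theorem result {𝕜 : Type} [RCLike 𝕜] (B : BanachIdeal.{u} 𝕜) (hB : B.LRP) : B.RightAccessible :=
  rightAccessible_of_LRP B hB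

end Pool.Agent.Results.MP_df739d_an.LRPRightAccessible
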